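import Mathlib
import Pool.Agent.W2helper44.CP.Stm

set_option autoImplicit false

/-!
# Piece GEO of project CP (for helper44, `MP_28b04d_gt`)
-/

open Set Filter Topology MeasureTheory
open scoped ContDiff

namespace Pool.Agent.W2helper44.CP

namespace H53

/-- Lipschitz bound on a convex set from a bound of the derivative -/
lemma lip_of_bound {E F : Type*} [NormedAddCommGroup E] [NormedSpace ℝ E] [NormedAddCommGroup F]
    [NormedSpace ℝ F] (f : E → F) (hf : Differentiable ℝ f) (s : Set E) (hs : Convex ℝ s) (C : ℝ)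
    (hC : ∀ x ∈ s, ‖fderiv ℝ f x‖ ≤ C) (y z : E) (hy : y ∈ s) (hz : z ∈ s) :
    ‖f y - f z‖ ≤ C * ‖y - z‖ :=
  hs.norm_image_sub_le_of_norm_fderiv_le (fun x _ => hf x) hC hz hy

end H53

open H53 in
theorem p_GEO : P_GEO := by
  intro ι _ M ρ hM
  obtain ⟨η₀, hη₀, hnb⟩ := hM.nbhd
  have hdρ : Differentiable ℝ ρ := hM.smooth.differentiable (by simp)
  have hρ1 : ContDiff ℝ ∞ (fderiv ℝ ρ) := hM.smooth.fderiv_right (by simp)
  have hdD : Differentiable ℝ (fderiv ℝ ρ) := hρ1.differentiable (by simp)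
  have hρ2 : ContDiff ℝ ∞ (fderiv ℝ (fderiv ℝ ρ)) := hρ1.fderiv_right (by simp)
  have hB : IsCompact (Metric.cthickening 3 M) := hM.cpt.cthickening
  obtain ⟨L1, hL1⟩ := hB.exists_bound_of_continuousOn (f := fderiv ℝ ρ)
    hρ1.continuous.continuousOn
  obtain ⟨L2, hL2⟩ := hB.exists_bound_of_continuousOn (f := fderiv ℝ (fderiv ℝ ρ))
    hρ2.continuous.continuousOn
  have hmem : ∀ x ∈ M, ∀ y, ‖y - x‖ ≤ 3 → y ∈ Metric.cthickening 3 M := by
    intro x hx y hy
    exact Metric.mem_cthickening_of_dist_le y x 3 M hx (by rwa [dist_eq_norm])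
  set L : ℝ := max 1 (max L1 L2) with hL
  have hL1' : L1 ≤ L := (le_max_left _ _).trans (le_max_right _ _)
  have hL2' : L2 ≤ L := (le_max_right _ _).trans (le_max_right _ _)
  have hL0 : 1 ≤ L := le_max_left _ _
  set η : ℝ := min η₀ 1 with hη
  have hη0 : 0 < η := lt_min hη₀ one_pos
  have hη1 : η ≤ 1 := min_le_right _ _
  have hηη : η ≤ η₀ := min_le_left _ _
  have bd1 : ∀ x ∈ M, ∀ y, ‖y - x‖ ≤ 3 → ‖fderiv ℝ ρ y‖ ≤ L := fun x hx y hy =>
    (hL1 y (hmem x hx y hy)).trans hL1'
  have bd2 : ∀ x ∈ M, ∀ y, ‖y - x‖ ≤ 3 → ‖fderiv ℝ (fderiv ℝ ρ) y‖ ≤ L := fun x hx y hy =>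
    (hL2 y (hmem x hx y hy)).trans hL2'
  have hball : ∀ (x : Eu ι) (t : ℝ) (y : Eu ι), y ∈ Metric.closedBall x t ↔ ‖y - x‖ ≤ t := by
    intro x t y
    rw [Metric.mem_closedBall, dist_eq_norm]
  have lip1 : ∀ x ∈ M, ∀ y z, ‖y - x‖ ≤ 3 → ‖z - x‖ ≤ 3 → ‖ρ y - ρ z‖ ≤ L * ‖y - z‖ := by
    intro x hx y z hy hz
    exact lip_of_bound ρ hdρ (Metric.closedBall x 3) (convex_closedBall x 3) L
      (fun w hw => bd1 x hx w ((hball _ _ _).1 hw)) y z ((hball _ _ _).2 hy) ((hball _ _ _).2 hz)
  have lip2 : ∀ x ∈ M, ∀ y z, ‖y - x‖ ≤ 3 → ‖z - x‖ ≤ 3 →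
      ‖fderiv ℝ ρ y - fderiv ℝ ρ z‖ ≤ L * ‖y - z‖ := by
    intro x hx y z hy hz
    exact lip_of_bound (fderiv ℝ ρ) hdD (Metric.closedBall x 3) (convex_closedBall x 3) L
      (fun w hw => bd2 x hx w ((hball _ _ _).1 hw)) y z ((hball _ _ _).2 hy) ((hball _ _ _).2 hz)
  have tay : ∀ x ∈ M, ∀ y, ‖y - x‖ ≤ η → ‖ρ y - x - fderiv ℝ ρ x (y - x)‖ ≤ L * ‖y - x‖ ^ 2 := by
    intro x hx y hy
    have h1 : ‖ρ y - ρ x - fderiv ℝ ρ x (y - x)‖ ≤ (L * ‖y - x‖) * ‖y - x‖ := by
      refine (convex_closedBall x ‖y - x‖).norm_image_sub_le_of_norm_hasFDerivWithin_le'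
        (f' := fun w => fderiv ℝ ρ w) (fun w _ => (hdρ w).hasFDerivAt.hasFDerivWithinAt) ?_
        (Metric.mem_closedBall_self (norm_nonneg _)) ((hball _ _ _).2 le_rfl)
      intro w hw
      rw [hball] at hw
      refine (lip2 x hx w x (by linarith) (by simp)).trans ?_
      exact mul_le_mul_of_nonneg_left hw (by linarith)
    rw [hM.id x hx] at h1
    refine h1.trans (le_of_eq ?_)
    ring
  refine ⟨η, L, hη0, hL0, fun x hx y hy => hnb x hx y (hy.trans hηη), ?_, ?_, tay, ?_, ?_, ?_⟩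
  · intro x hx y z hy hz
    exact ⟨lip1 x hx y z (by linarith) (by linarith), lip2 x hx y z (by linarith) (by linarith)⟩
  · intro x hx y hy
    exact bd1 x hx y (by linarith)
  · intro x hx y hyM hy
    have := tay x hx y hy
    rwa [hM.id y hyM] at this
  · intro x hx u
    have hev : (fun y => ρ (ρ y)) =ᶠ[𝓝 x] ρ := by
      have : ∀ᶠ y in 𝓝 x, y ∈ Metric.ball x η₀ := Metric.ball_mem_nhds x hη₀
      filter_upwards [this] with y hy
      rw [Metric.mem_ball, dist_eq_norm] at hy
      exact hM.id _ (hnb x hx y hy.le)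
    have h1 : fderiv ℝ (fun y => ρ (ρ y)) x = fderiv ℝ ρ x := hev.fderiv_eq
    have h2 : fderiv ℝ (fun y => ρ (ρ y)) x = (fderiv ℝ ρ x).comp (fderiv ℝ ρ x) := by
      have := fderiv_comp x (hdρ (ρ x)) (hdρ x)
      rw [hM.id x hx] at this
      exact this
    rw [h1] at h2
    conv_rhs => rw [h2]
    rfl
  · intro x hx y hy a b hxy ha hb
    set f : ℝ → Eu ι := fun s => ρ (b + s • (a - b)) - ρ (y + s • (x - y)) with hf
    have hd : ∀ s : ℝ, HasDerivAt f (fderiv ℝ ρ (b + s • (a - b)) (a - b) -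
        fderiv ℝ ρ (y + s • (x - y)) (x - y)) s := by
      intro s
      have h1 : HasDerivAt (fun s : ℝ => b + s • (a - b)) (a - b) s := by
        simpa using ((hasDerivAt_id s).smul_const (a - b)).const_add b
      have h2 : HasDerivAt (fun s : ℝ => y + s • (x - y)) (x - y) s := by
        simpa using ((hasDerivAt_id s).smul_const (x - y)).const_add y
      exact ((hdρ _).hasFDerivAt.comp_hasDerivAt s h1).sub
        ((hdρ _).hasFDerivAt.comp_hasDerivAt s h2)
    have hm := norm_image_sub_le_of_norm_deriv_le_segment_01' (f := f)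
      (C := L * (‖a - x‖ + ‖b - y‖) * ‖x - y‖ + L * ‖(a - x) - (b - y)‖)
      (fun s _ => (hd s).hasDerivWithinAt) (by
        intro s hs
        have hs0 := hs.1
        have hs1 := hs.2.le
        set as := b + s • (a - b) with has
        set zs := y + s • (x - y) with hzs
        have e1 : as - zs = (1 - s) • (b - y) + s • (a - x) := by
          rw [has, hzs]
          module
        have n1 : ‖as - zs‖ ≤ ‖a - x‖ + ‖b - y‖ := by
          rw [e1]
          refine (norm_add_le _ _).trans ?_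
          rw [norm_smul, norm_smul, Real.norm_eq_abs, Real.norm_eq_abs, abs_of_nonneg hs0,
            abs_of_nonneg (by linarith : (0 : ℝ) ≤ 1 - s)]
          have := norm_nonneg (a - x)
          have := norm_nonneg (b - y)
          nlinarith
        have n2 : ‖zs - x‖ ≤ 1 := by
          have e2 : zs - x = (1 - s) • (y - x) := by
            rw [hzs]
            module
          rw [e2, norm_smul, Real.norm_eq_abs, abs_of_nonneg (by linarith : (0 : ℝ) ≤ 1 - s),
            norm_sub_rev y x]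
          have := norm_nonneg (x - y)
          nlinarith
        have n3 : ‖as - x‖ ≤ 3 := by
          have : as - x = (as - zs) + (zs - x) := by abel
          rw [this]
          refine (norm_add_le _ _).trans ?_
          linarith
        have e3 : fderiv ℝ ρ as (a - b) - fderiv ℝ ρ zs (x - y) =
            (fderiv ℝ ρ as - fderiv ℝ ρ zs) (x - y) + fderiv ℝ ρ as ((a - x) - (b - y)) := by
          have : a - b = (x - y) + ((a - x) - (b - y)) := by abel
          rw [this, map_add]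
          simp only [sub_apply]
          abel_nf
        rw [e3]
        refine (norm_add_le _ _).trans (add_le_add ?_ ?_)
        · refine (ContinuousLinearMap.le_opNorm _ _).trans ?_
          refine mul_le_mul_of_nonneg_right ?_ (norm_nonneg _)
          refine (lip2 x hx as zs n3 (by linarith)).trans ?_
          exact mul_le_mul_of_nonneg_left n1 (by linarith)
        · refine (ContinuousLinearMap.le_opNorm _ _).trans ?_
          exact mul_le_mul_of_nonneg_right (bd1 x hx as n3) (norm_nonneg _))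
    have e4 : f 1 - f 0 = ρ a - ρ b - (x - y) := by
      simp only [hf, one_smul, zero_smul, add_zero]
      rw [show b + (a - b) = a by abel, show y + (x - y) = x by abel, hM.id x hx, hM.id y hy]
      abel
    rwa [e4] at hm

end Pool.Agent.W2helper44.CP
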