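import Mathlib
import Pool.Agent.W2helper44.CP.Stm

set_option autoImplicit false

/-!
# Piece INV1 of project CP (for helper44, `MP_28b04d_gt`)
-/

open Set Filter Topology MeasureTheory Asymptotics
open scoped ContDiff

namespace Pool.Agent.W2helper44.CP

namespace H53

/-- smooth local inverse near a point with injective derivative -/
lemma local_inverse {E : Type*} [NormedAddCommGroup E] [NormedSpace ℝ E] [FiniteDimensional ℝ E]
    (P : E → E) (hP : ContDiff ℝ ∞ P) (x : E) (hinj : ∀ u, fderiv ℝ P x u = 0 → u = 0) :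
    ∃ (g : E → E) (U : Set E), IsOpen U ∧ P x ∈ U ∧ ContDiffOn ℝ ∞ g U ∧ g (P x) = x ∧
      (∀ᶠ y in 𝓝 x, g (P y) = y) ∧ ∀ z ∈ U, P (g z) = z := by
  have : CompleteSpace E := FiniteDimensional.complete ℝ E
  have hinj' : Function.Injective (fderiv ℝ P x : E →ₗ[ℝ] E) := by
    rw [← LinearMap.ker_eq_bot, LinearMap.ker_eq_bot']
    exact fun u hu => hinj u hu
  let e₀ : E ≃L[ℝ] E := (LinearEquiv.ofInjectiveEndo _ hinj').toContinuousLinearEquiv
  have he₀ : (e₀ : E →L[ℝ] E) = fderiv ℝ P x := by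
    ext u
    rfl
  have hPx : ContDiffAt ℝ ∞ P x := hP.contDiffAt
  have hd : HasFDerivAt P (e₀ : E →L[ℝ] E) x := by
    rw [he₀]
    exact (hP.differentiable (by simp) x).hasFDerivAt
  have hcont : Continuous (fderiv ℝ P) := hP.continuous_fderiv (by simp)
  let e := hPx.toOpenPartialHomeomorph P hd (by simp)
  let V : Set E := (fderiv ℝ P) ⁻¹' (range ((↑) : (E ≃L[ℝ] E) → E →L[ℝ] E))
  have hV : IsOpen V := ContinuousLinearEquiv.isOpen.preimage hcont
  have hxV : x ∈ V := ⟨e₀, he₀⟩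
  let e' := e.restrOpen V hV
  have hxs : x ∈ e'.source := by
    rw [OpenPartialHomeomorph.restrOpen_source]
    exact ⟨hPx.mem_toOpenPartialHomeomorph_source hd (by simp), hxV⟩
  have hcoe : ∀ y, e' y = P y := fun y => rfl
  refine ⟨e'.symm, e'.target, e'.open_target, ?_, ?_, ?_, ?_, ?_⟩
  · have := e'.map_source hxs
    rwa [hcoe] at this
  · intro z hz
    have hs : e'.symm z ∈ e'.source := e'.map_target hz
    have hs' : e'.symm z ∈ V := by
      rw [OpenPartialHomeomorph.restrOpen_source] at hs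
      exact hs.2
    obtain ⟨e₁, he₁⟩ := hs'
    refine (e'.contDiffAt_symm (f₀' := e₁) hz ?_ ?_).contDiffWithinAt
    · rw [he₁]
      exact (hP.differentiable (by simp) _).hasFDerivAt
    · exact hP.contDiffAt
  · have := e'.left_inv hxs
    rwa [hcoe] at this
  · filter_upwards [e'.open_source.mem_nhds hxs] with y hy
    have := e'.left_inv hy
    rwa [hcoe] at this
  · intro z hz
    have := e'.right_inv hz
    rwa [hcoe] at this

/-- a lower bound along a curve gives a nonzero derivative -/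
lemma deriv_ne {E : Type*} [NormedAddCommGroup E] [NormedSpace ℝ E] (γ φ : ℝ → E) (a : E) (c : ℝ)
    (hc : 0 < c) (hγ : HasDerivAt γ a 0) (hφ : HasDerivAt φ 0 0)
    (hle : ∀ᶠ s in 𝓝 (0 : ℝ), c * ‖γ s - γ 0‖ ≤ ‖φ s - φ 0‖) : a = 0 := by
  have h1 : HasDerivAt γ 0 0 := by
    rw [hasDerivAt_iff_isLittleO] at hφ ⊢
    simp only [smul_zero, sub_zero] at hφ ⊢
    refine IsBigO.trans_isLittleO ?_ hφ
    refine IsBigO.of_bound (c⁻¹) ?_
    filter_upwards [hle] with s hs
    rw [inv_mul_eq_div, le_div_iff₀ hc]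
    linarith
  exact hγ.unique h1

end H53

open H53 in
theorem p_INV1 : P_INV1 := by
  intro hGEO ι _ M ρ hM
  obtain ⟨η, L, hη, hL, hnb, hlip, -, -, -, hidem, -⟩ := hGEO ι M ρ hM
  refine ⟨min η (1 / (2 * L)), lt_min hη (by positivity), ?_⟩
  rintro ψ hψ hψM hclose ⟨c, hc, hlow⟩ x hx
  have hdρ : Differentiable ℝ ρ := hM.smooth.differentiable (by simp)
  have hdψ : Differentiable ℝ ψ := hψ.differentiable (by simp)
  have hρx : ρ x = x := hM.id x hx
  set P : Eu ι → Eu ι := fun y => ψ (ρ y) + (y - ρ y) with hPdef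
  have hP : ContDiff ℝ ∞ P := (hψ.comp hM.smooth).add (contDiff_id.sub hM.smooth)
  have hPx : P x = ψ x := by
    simp [hPdef, hρx]
  have hnear : ∀ᶠ y in 𝓝 x, ρ y ∈ M := by
    filter_upwards [Metric.ball_mem_nhds x hη] with y hy
    rw [Metric.mem_ball, dist_eq_norm] at hy
    exact hnb x hx y hy.le
  have hderiv : ∀ u, fderiv ℝ P x u = fderiv ℝ ψ x (fderiv ℝ ρ x u) + (u - fderiv ℝ ρ x u) := by
    intro u
    have h1 : HasFDerivAt P ((fderiv ℝ ψ (ρ x)).comp (fderiv ℝ ρ x) +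
        (ContinuousLinearMap.id ℝ (Eu ι) - fderiv ℝ ρ x)) x :=
      HasFDerivAt.add ((hdψ (ρ x)).hasFDerivAt.comp x (hdρ x).hasFDerivAt)
        (HasFDerivAt.sub (hasFDerivAt_id (𝕜 := ℝ) x) (hdρ x).hasFDerivAt)
    rw [h1.fderiv, hρx]
    rfl
  have hrange : ∀ u, fderiv ℝ ρ (ψ x) (fderiv ℝ ψ x (fderiv ℝ ρ x u)) =
      fderiv ℝ ψ x (fderiv ℝ ρ x u) := by
    intro u
    have hev : (fun y => ρ (ψ (ρ y))) =ᶠ[𝓝 x] fun y => ψ (ρ y) := by
      filter_upwards [hnear] with y hy
      exact hM.id _ (hψM hy)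
    have h1 : HasFDerivAt (fun y => ψ (ρ y)) ((fderiv ℝ ψ (ρ x)).comp (fderiv ℝ ρ x)) x :=
      (hdψ (ρ x)).hasFDerivAt.comp x (hdρ x).hasFDerivAt
    have h2 : HasFDerivAt (fun y => ρ (ψ (ρ y)))
        ((fderiv ℝ ρ (ψ (ρ x))).comp ((fderiv ℝ ψ (ρ x)).comp (fderiv ℝ ρ x))) x :=
      (hdρ (ψ (ρ x))).hasFDerivAt.comp x h1
    have h3 := hev.fderiv_eq (𝕜 := ℝ)
    rw [h1.fderiv, h2.fderiv, hρx] at h3
    exact DFunLike.congr_fun h3 u
  have hinj : ∀ u, fderiv ℝ P x u = 0 → u = 0 := by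
    intro u hu
    rw [hderiv] at hu
    set T := fderiv ℝ ρ x with hT
    set S := fderiv ℝ ρ (ψ x) with hS
    have hcx := hclose x hx
    have hST : ‖S - T‖ ≤ 1 / 2 := by
      have h1 := (hlip x hx (ψ x) x (hcx.trans (min_le_left _ _)) (by simpa using hη.le)).2
      refine h1.trans ?_
      have h2 := hcx.trans (min_le_right _ _)
      have h3 : L * ‖ψ x - x‖ ≤ L * (1 / (2 * L)) := mul_le_mul_of_nonneg_left h2 (by linarith)
      have h4 : L * (1 / (2 * L)) = 1 / 2 := by field_simp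
      linarith
    set n := u - T u with hn
    have hTn : T n = 0 := by
      rw [hn, map_sub, hidem x hx u, sub_self]
    have hneg : fderiv ℝ ψ x (T u) = -n := by
      rw [eq_neg_iff_add_eq_zero]
      exact hu
    have hSn : S n = n := by
      have := hrange u
      rw [hneg, map_neg] at this
      exact neg_injective this
    have hn0 : n = 0 := by
      have h1 : n = (S - T) n := by
        rw [sub_apply, hSn, hTn, sub_zero]
      have h2 : ‖n‖ ≤ 1 / 2 * ‖n‖ := by
        calc ‖n‖ = ‖(S - T) n‖ := by rw [← h1]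
          _ ≤ ‖S - T‖ * ‖n‖ := ContinuousLinearMap.le_opNorm _ _
          _ ≤ 1 / 2 * ‖n‖ := mul_le_mul_of_nonneg_right hST (norm_nonneg _)
      have h3 := norm_nonneg n
      exact norm_eq_zero.1 (by linarith)
    have hu' : u = T u := sub_eq_zero.1 hn0
    rw [hn0, neg_zero] at hneg
    -- the curve `s ↦ ρ (x + s u)`
    have hγ0 : HasDerivAt (fun s : ℝ => x + s • u) u 0 := by
      simpa using ((hasDerivAt_id (0 : ℝ)).smul_const u).const_add x
    have hγ : HasDerivAt (fun s : ℝ => ρ (x + s • u)) u 0 := by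
      have h1 : HasFDerivAt ρ T (x + (0 : ℝ) • u) := by
        rw [zero_smul, add_zero]
        exact (hdρ x).hasFDerivAt
      have := h1.comp_hasDerivAt (0 : ℝ) hγ0
      rwa [← hu'] at this
    have hφ : HasDerivAt (fun s : ℝ => ψ (ρ (x + s • u))) 0 0 := by
      have h1 : HasFDerivAt ψ (fderiv ℝ ψ x) (ρ (x + (0 : ℝ) • u)) := by
        rw [zero_smul, add_zero, hρx]
        exact (hdψ x).hasFDerivAt
      have := h1.comp_hasDerivAt (0 : ℝ) hγ
      have e : fderiv ℝ ψ x u = 0 := by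
        conv_lhs => rw [hu']
        exact hneg
      rwa [e] at this
    refine deriv_ne _ _ u c hc hγ hφ ?_
    have hcur : Tendsto (fun s : ℝ => x + s • u) (𝓝 0) (𝓝 x) := by
      have := hγ0.continuousAt.tendsto
      simpa using this
    filter_upwards [hcur.eventually hnear] with s hs
    have h1 := hlow _ hs x hx
    simpa [hρx] using h1
  obtain ⟨g, U, hU, hxU, hg, hgx, hgy, hgz⟩ := local_inverse P hP x hinj
  rw [hPx] at hxU hgx
  exact ⟨g, U, hU, hxU, hg, hgx, hgy, hgz⟩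

end Pool.Agent.W2helper44.CP
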